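import Pool.Agent.helper53.ORT.Spec

/-!
# Project ort (MP_561ff4_al), row WA: Witt's theorem for orthogonal families, with reflections
-/

set_option autoImplicit false

namespace Pool.Agent.ORT

open Module Pool.Agent.GS

/-- The reflections generate a subgroup of the orthogonal group. -/
theorem WA_le {F V : Type} [Field F] [AddCommGroup V] [Module F V]
    {B : LinearMap.BilinForm F V} (hB : Sym B) :
    Subgroup.closure (Set.range (rf B)) ≤ SpG B := by
  rw [Subgroup.closure_le]
  rintro _ ⟨a, rfl⟩
  exact rf_mem hB a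

/-- Two vectors of the same norm are interchanged by a product of at most two reflections. -/
theorem WA_two {F V : Type} [Field F] [AddCommGroup V] [Module F V]
    {B : LinearMap.BilinForm F V} (h2 : (2 : F) ≠ 0) (hB : Sym B) (v w : V)
    (hv : B v v ≠ 0) (hvw : B v v = B w w) :
    ∃ s ∈ Subgroup.closure (Set.range (rf B)), s v = w ∧
      ∀ x : V, B x v = 0 → B x w = 0 → s x = x := by
  have hwv : B w v = B v w := hB.symm w v
  by_cases h : B (v - w) (v - w) = 0
  · -- then `B v w = B v v`
    have e1 : B (v - w) (v - w) = 2 * (B v v - B v w) := by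
      simp only [map_sub, LinearMap.sub_apply]
      rw [hwv, ← hvw]
      ring
    have e2 : B v w = B v v := by
      rw [e1] at h
      rcases mul_eq_zero.mp h with h' | h'
      · exact absurd h' h2
      · exact (sub_eq_zero.mp h').symm
    have e3 : B (v + w) (v + w) = 2 * (2 * B v v) := by
      simp only [map_add, LinearMap.add_apply]
      rw [hwv, ← hvw, e2]
      ring
    have e4 : B (v + w) (v + w) ≠ 0 := by
      rw [e3]
      exact mul_ne_zero h2 (mul_ne_zero h2 hv)
    have hw : B w w ≠ 0 := by rw [← hvw]; exact hv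
    refine ⟨rf B w * rf B (v + w), Subgroup.mul_mem _ (Subgroup.subset_closure ⟨w, rfl⟩)
      (Subgroup.subset_closure ⟨v + w, rfl⟩), ?_, ?_⟩
    · rw [Equiv.Perm.mul_apply, rf_apply e4]
      have e5 : 2 * B v (v + w) / B (v + w) (v + w) = 1 := by
        have e6 : 2 * B v (v + w) = B (v + w) (v + w) := by
          rw [e3, map_add, e2]
          ring
        rw [e6, div_self e4]
      rw [e5, one_smul]
      have e7 : v - (v + w) = (-1 : F) • w := by
        rw [neg_one_smul]
        abel
      rw [e7, rf_apply hw]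
      have e8 : 2 * B ((-1 : F) • w) w / B w w = -2 := by
        rw [map_smul, LinearMap.smul_apply, smul_eq_mul]
        field_simp
      rw [e8]
      rw [← sub_smul]
      have e9 : (-1 : F) - -2 = 1 := by ring
      rw [e9, one_smul]
    · intro x hx1 hx2
      have hx3 : B x (v + w) = 0 := by rw [map_add, hx1, hx2, add_zero]
      rw [Equiv.Perm.mul_apply, rf_of_orth e4 hx3, rf_of_orth hw hx2]
  · refine ⟨rf B (v - w), Subgroup.subset_closure ⟨v - w, rfl⟩, ?_, ?_⟩
    · rw [rf_apply h]
      have e1 : 2 * B v (v - w) = B (v - w) (v - w) := by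
        simp only [map_sub, LinearMap.sub_apply]
        rw [hwv, ← hvw]
        ring
      rw [e1, div_self h, one_smul]
      abel
    · intro x hx1 hx2
      have hx3 : B x (v - w) = 0 := by rw [map_sub, hx1, hx2, sub_zero]
      exact rf_of_orth h hx3

/-- WA. -/
theorem WA : WA_stmt := by
  intro F V _ _ _ B hF hB k
  have h2 : (2 : F) ≠ 0 := Ring.two_ne_zero hF
  induction k with
  | zero =>
    intro a a' _ _ _
    exact ⟨1, Subgroup.one_mem _, fun i => i.elim0⟩
  | succ k ih =>
    intro a a' ha ha' hN
    have hinj : Function.Injective (Fin.castSucc : Fin k → Fin (k + 1)) :=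
      Fin.castSucc_injective k
    obtain ⟨g0, hg0, h0⟩ := ih (fun i => a i.castSucc) (fun i => a' i.castSucc)
      (ha.comp hinj) (ha'.comp hinj) (fun i => hN i.castSucc)
    have hg0' : g0 ∈ SpG B := WA_le hB hg0
    have hNv : B (g0 (a (Fin.last k))) (g0 (a (Fin.last k))) =
        B (a (Fin.last k)) (a (Fin.last k)) := hg0'.2 _ _
    obtain ⟨s, hs, hs1, hs2⟩ := WA_two h2 hB (g0 (a (Fin.last k))) (a' (Fin.last k))
      (by rw [hNv]; exact ha.n _) (by rw [hNv]; exact hN _)
    refine ⟨s * g0, Subgroup.mul_mem _ hs hg0, ?_⟩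
    intro i
    refine Fin.lastCases ?_ (fun i => ?_) i
    · rw [Equiv.Perm.mul_apply]
      exact hs1
    · rw [Equiv.Perm.mul_apply]
      have h1 : g0 (a i.castSucc) = a' i.castSucc := h0 i
      rw [h1]
      apply hs2
      · rw [← h1, hg0'.2]
        exact ha.o _ _ (ne_of_lt (Fin.castSucc_lt_last i))
      · exact ha'.o _ _ (ne_of_lt (Fin.castSucc_lt_last i))

end Pool.Agent.ORT
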